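import Pool.Agent.Run7.h450.CS.Iface

/-! # Project CL, piece NINJ (helper269) -/

set_option autoImplicit false
open Matrix

namespace Run7.h269.CL

open Run7.h450.CL

theorem list_anti {R : Type} [Ring R] (g : R) (L : List R) (h : ∀ a ∈ L, g * a = -(a * g)) :
    g * L.prod = (-1 : ℤ) ^ L.length • (L.prod * g) := by
  induction L with
  | nil => simp
  | cons a L ih =>
    have h1 := ih fun b hb => h b (List.mem_cons_of_mem _ hb)
    have h2 := h a List.mem_cons_self
    rw [List.prod_cons, List.length_cons, ← mul_assoc, h2, neg_mul, mul_assoc, h1,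
      mul_smul_comm, pow_succ, mul_neg_one, neg_smul, mul_assoc]

theorem t_NINJ : S_GAM → S_NINJ := by
  intro gam K _ _ p γ hp hγ f hf
  have hsurj : ¬ Function.Surjective f := fun h => hf (Finite.injective_iff_surjective.2 h)
  rw [Function.Surjective] at hsurj
  push Not at hsurj
  obtain ⟨j, hj⟩ := hsurj
  have hG := (gam K p γ hp hγ).1 j
  have hw : γ j * wd (fun k => γ (f k)) = wd (fun k => γ (f k)) * γ j := by
    unfold wd
    rw [list_anti (γ j) (List.ofFn fun k => γ (f k)), List.length_ofFn]
    · have : Even (p + 1) := hp.add_one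
      rw [this.neg_one_pow, one_smul]
    · intro a ha
      rw [List.mem_ofFn] at ha
      obtain ⟨k, rfl⟩ := ha
      exact hγ.anti j (f k) (fun h => hj k h.symm)
  set w := wd (fun k => γ (f k)) with hwd
  have e1 : (γ j * (Gam γ * w) * γ j).trace = (Gam γ * w).trace := by
    rw [Matrix.trace_mul_comm, ← mul_assoc, hγ.sq j, one_mul]
  have e2 : γ j * (Gam γ * w) * γ j = -(Gam γ * w) := by
    have h3 : γ j * Gam γ = -(Gam γ * γ j) := by rw [hG, neg_neg]
    calc γ j * (Gam γ * w) * γ j = (γ j * Gam γ) * (w * γ j) := by simp only [mul_assoc]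
      _ = -(Gam γ * γ j) * (γ j * w) := by rw [h3, ← hw]
      _ = -(Gam γ * (γ j * γ j) * w) := by simp only [neg_mul, mul_assoc]
      _ = -(Gam γ * w) := by rw [hγ.sq j, mul_one]
  rw [e2, Matrix.trace_neg] at e1
  have h4 : (2 : ℂ) * (Gam γ * w).trace = 0 := by linear_combination -e1
  exact (mul_eq_zero.1 h4).resolve_left two_ne_zero

end Run7.h269.CL
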